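import Mathlib

set_option autoImplicit false

/-!
FJL-2: Maurey nets (greedy / potential function argument), for MP_fe497f_lc.
-/

namespace Pool.Agent.FJL

open Finset

/-- One factor of the potential. -/
theorem maurey_mgf {O : Type} [Fintype O] (w : O → ℝ) (hw : ∀ o, 0 ≤ w o) (hw1 : ∑ o, w o = 1)
    (X : O → ℝ) (η lam μ : ℝ) (hX : ∀ o, |X o| ≤ η) (hμ : ∑ o, w o * X o = μ)
    (hlam : 2 * |lam| * η ≤ 1) :
    ∑ o, w o * Real.exp (lam * (X o - μ)) ≤ Real.exp (lam ^ 2 * η ^ 2) := by
  have hη : 0 ≤ η := by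
    by_contra h
    push Not at h
    have : ∀ o, False := fun o => absurd (lt_of_le_of_lt ((abs_nonneg _).trans (hX o)) h)
      (lt_irrefl _)
    have he : IsEmpty O := ⟨this⟩
    simp at hw1
  have hμη : |μ| ≤ η := by
    rw [← hμ]
    calc |∑ o, w o * X o| ≤ ∑ o, |w o * X o| := abs_sum_le_sum_abs _ _
      _ ≤ ∑ o, w o * η := by
          refine sum_le_sum fun o _ => ?_
          rw [abs_mul, abs_of_nonneg (hw o)]
          exact mul_le_mul_of_nonneg_left (hX o) (hw o)
      _ = η := by rw [← sum_mul, hw1, one_mul]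
  have h1 : ∀ o, Real.exp (lam * (X o - μ)) ≤
      1 + lam * (X o - μ) + (lam * (X o - μ)) ^ 2 := by
    intro o
    have hb : |lam * (X o - μ)| ≤ 1 := by
      rw [abs_mul]
      have : |X o - μ| ≤ 2 * η := by
        calc |X o - μ| ≤ |X o| + |μ| := abs_sub _ _
          _ ≤ 2 * η := by linarith [hX o]
      calc |lam| * |X o - μ| ≤ |lam| * (2 * η) := mul_le_mul_of_nonneg_left this (abs_nonneg _)
        _ = 2 * |lam| * η := by ring
        _ ≤ 1 := hlam
    have := (abs_le.mp (Real.abs_exp_sub_one_sub_id_le hb)).2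
    linarith
  have h2 : ∑ o, w o * X o ^ 2 ≤ η ^ 2 := by
    calc ∑ o, w o * X o ^ 2 ≤ ∑ o, w o * η ^ 2 := by
          refine sum_le_sum fun o _ => ?_
          refine mul_le_mul_of_nonneg_left ?_ (hw o)
          rw [← sq_abs (X o)]
          exact pow_le_pow_left₀ (abs_nonneg _) (hX o) 2
      _ = η ^ 2 := by rw [← sum_mul, hw1, one_mul]
  calc ∑ o, w o * Real.exp (lam * (X o - μ))
      ≤ ∑ o, w o * (1 + lam * (X o - μ) + (lam * (X o - μ)) ^ 2) :=
        sum_le_sum fun o _ => mul_le_mul_of_nonneg_left (h1 o) (hw o)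
    _ = ∑ o, ((1 - lam * μ + lam ^ 2 * μ ^ 2) * w o + (lam - 2 * lam ^ 2 * μ) * (w o * X o) +
          lam ^ 2 * (w o * X o ^ 2)) := sum_congr rfl fun o _ => by ring
    _ = (1 - lam * μ + lam ^ 2 * μ ^ 2) + (lam - 2 * lam ^ 2 * μ) * μ +
          lam ^ 2 * ∑ o, w o * X o ^ 2 := by
        rw [sum_add_distrib, sum_add_distrib, ← mul_sum, ← mul_sum, ← mul_sum, hw1, hμ, mul_one]
    _ ≤ 1 + lam ^ 2 * η ^ 2 := by
        nlinarith [mul_le_mul_of_nonneg_left h2 (sq_nonneg lam), mul_nonneg (sq_nonneg lam)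
          (sq_nonneg μ)]
    _ ≤ Real.exp (lam ^ 2 * η ^ 2) := by
        have := Real.add_one_le_exp (lam ^ 2 * η ^ 2)
        linarith

/-- One greedy step. -/
theorem maurey_step {O J : Type} [Fintype O] [Fintype J] (w : O → ℝ) (hw : ∀ o, 0 ≤ w o)
    (hw1 : ∑ o, w o = 1) (X : O → J → ℝ) (η lam : ℝ) (μ : J → ℝ) (hX : ∀ o j, |X o j| ≤ η)
    (hμ : ∀ j, ∑ o, w o * X o j = μ j) (hlam : 2 * |lam| * η ≤ 1) (S : J → ℝ) :
    ∃ o, ∑ j, (Real.exp (lam * (S j + (X o j - μ j))) +
        Real.exp (-lam * (S j + (X o j - μ j)))) ≤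
      Real.exp (lam ^ 2 * η ^ 2) * ∑ j, (Real.exp (lam * S j) + Real.exp (-lam * S j)) := by
  by_contra hcon
  push Not at hcon
  set c := Real.exp (lam ^ 2 * η ^ 2) * ∑ j, (Real.exp (lam * S j) + Real.exp (-lam * S j))
    with hc
  have hle : ∑ o, w o * (∑ j, (Real.exp (lam * (S j + (X o j - μ j))) +
      Real.exp (-lam * (S j + (X o j - μ j)))) - c) ≤ 0 := by
    have e1 : ∑ o, w o * (∑ j, (Real.exp (lam * (S j + (X o j - μ j))) +
        Real.exp (-lam * (S j + (X o j - μ j)))) - c) =
        ∑ j, (Real.exp (lam * S j) * (∑ o, w o * Real.exp (lam * (X o j - μ j))) +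
          Real.exp (-lam * S j) * (∑ o, w o * Real.exp (-lam * (X o j - μ j)))) - c := by
      have : ∀ o, w o * (∑ j, (Real.exp (lam * (S j + (X o j - μ j))) +
        Real.exp (-lam * (S j + (X o j - μ j)))) - c) =
        ∑ j, (Real.exp (lam * S j) * (w o * Real.exp (lam * (X o j - μ j))) +
          Real.exp (-lam * S j) * (w o * Real.exp (-lam * (X o j - μ j)))) - w o * c := by
        intro o
        rw [mul_sub, mul_sum]
        congr 1
        refine sum_congr rfl fun j _ => ?_
        rw [mul_add lam, mul_add (-lam), Real.exp_add, Real.exp_add]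
        ring
      rw [sum_congr rfl fun o _ => this o, sum_sub_distrib, ← sum_mul, hw1, one_mul, sum_comm]
      congr 1
      refine sum_congr rfl fun j _ => ?_
      rw [sum_add_distrib, mul_sum, mul_sum]
    rw [e1, hc, mul_sum, ← sum_sub_distrib]
    refine sum_nonpos fun j _ => ?_
    have g1 := maurey_mgf w hw hw1 (fun o => X o j) η lam (μ j) (fun o => hX o j) (hμ j) hlam
    have g2 := maurey_mgf w hw hw1 (fun o => X o j) η (-lam) (μ j) (fun o => hX o j) (hμ j)
      (by rwa [abs_neg])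
    rw [neg_sq] at g2
    have p1 := Real.exp_pos (lam * S j)
    have p2 := Real.exp_pos (-lam * S j)
    nlinarith [mul_le_mul_of_nonneg_left g1 p1.le, mul_le_mul_of_nonneg_left g2 p2.le]
  have hnn : ∀ o ∈ (univ : Finset O), 0 ≤ w o * (∑ j, (Real.exp (lam * (S j + (X o j - μ j))) +
      Real.exp (-lam * (S j + (X o j - μ j)))) - c) := fun o _ =>
    mul_nonneg (hw o) (sub_nonneg.mpr (hcon o).le)
  have h0 := (sum_eq_zero_iff_of_nonneg hnn).mp (le_antisymm hle (sum_nonneg hnn))
  have hwz : ∀ o, w o = 0 := by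
    intro o
    rcases mul_eq_zero.mp (h0 o (mem_univ o)) with h | h
    · exact h
    · exact absurd (sub_eq_zero.mp h) (ne_of_gt (hcon o))
  rw [sum_congr rfl fun o _ => hwz o] at hw1
  simp at hw1

/-- `k` greedy steps. -/
theorem maurey_steps {O J : Type} [Fintype O] [Fintype J] (w : O → ℝ) (hw : ∀ o, 0 ≤ w o)
    (hw1 : ∑ o, w o = 1) (X : O → J → ℝ) (η lam : ℝ) (μ : J → ℝ) (hX : ∀ o j, |X o j| ≤ η)
    (hμ : ∀ j, ∑ o, w o * X o j = μ j) (hlam : 2 * |lam| * η ≤ 1) (o₀ : O) (k : ℕ) :
    ∃ s : ℕ → O, ∑ j, (Real.exp (lam * ∑ t ∈ range k, (X (s t) j - μ j)) +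
        Real.exp (-lam * ∑ t ∈ range k, (X (s t) j - μ j))) ≤
      Real.exp (k * (lam ^ 2 * η ^ 2)) * (2 * Fintype.card J) := by
  induction k with
  | zero =>
    refine ⟨fun _ => o₀, le_of_eq ?_⟩
    simp
    ring
  | succ k ih =>
    obtain ⟨s, hs⟩ := ih
    obtain ⟨o, ho⟩ := maurey_step w hw hw1 X η lam μ hX hμ hlam
      (fun j => ∑ t ∈ range k, (X (s t) j - μ j))
    refine ⟨fun t => if t = k then o else s t, ?_⟩
    have hsum : ∀ j, ∑ t ∈ range (k + 1), (X (if t = k then o else s t) j - μ j) =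
        ∑ t ∈ range k, (X (s t) j - μ j) + (X o j - μ j) := by
      intro j
      rw [sum_range_succ, if_pos rfl]
      congr 1
      refine sum_congr rfl fun t ht => ?_
      rw [if_neg (ne_of_lt (mem_range.mp ht))]
    simp only [hsum]
    refine ho.trans ?_
    refine (mul_le_mul_of_nonneg_left hs (Real.exp_pos _).le).trans (le_of_eq ?_)
    rw [← mul_assoc, ← Real.exp_add]
    congr 2
    push_cast
    ring

/-- The atoms of the Maurey selection. -/
def mX {I J : Type} (H : J → I → ℝ) : Option (I × Bool) → J → ℝ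
  | none, _ => 0
  | some (i, true), j => H j i
  | some (i, false), j => - H j i

/-- The value of a selection. -/
noncomputable def mV {I J : Type} (H : J → I → ℝ) (l : ℝ) (k : ℕ)
    (s : Fin k → Option (I × Bool)) (j : J) : ℝ := l / k * ∑ t, mX H (s t) j

theorem maurey_select {I J : Type} [Fintype I] [Fintype J] [Nonempty J] (H : J → I → ℝ) (η : ℝ)
    (hη : 0 ≤ η) (h1 : ∀ j i, |H j i| ≤ η) (a : I → ℝ) (l : ℝ) (hl : 0 ≤ l)
    (ha : ∑ i, |a i| ≤ l) (k : ℕ) (hk : 1 ≤ k) :
    ∃ s : Fin k → Option (I × Bool), ∀ j, |∑ i, H j i * a i - mV H l k s j| ≤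
        4 * l * η * Real.sqrt (Real.log (2 * Fintype.card J) / k) := by
  have hJ : (1 : ℝ) ≤ Fintype.card J := by exact_mod_cast Fintype.card_pos
  set L := Real.log (2 * Fintype.card J) with hL
  have hLpos : 0 < L := Real.log_pos (by linarith)
  have hk0 : (0 : ℝ) < k := by exact_mod_cast hk
  have hbound : ∀ j, |∑ i, H j i * a i| ≤ l * η := by
    intro j
    calc |∑ i, H j i * a i| ≤ ∑ i, |H j i * a i| := abs_sum_le_sum_abs _ _
      _ ≤ ∑ i, η * |a i| := by
          refine sum_le_sum fun i _ => ?_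
          rw [abs_mul]
          exact mul_le_mul_of_nonneg_right (h1 j i) (abs_nonneg _)
      _ = η * ∑ i, |a i| := by rw [mul_sum]
      _ ≤ η * l := mul_le_mul_of_nonneg_left ha hη
      _ = l * η := mul_comm _ _
  by_cases hcase : (1 : ℝ) / 4 ≤ Real.sqrt (L / k)
  · refine ⟨fun _ => none, fun j => ?_⟩
    have : mV H l k (fun _ => none) j = 0 := by simp [mV, mX]
    rw [this, sub_zero]
    refine (hbound j).trans ?_
    have := mul_nonneg hl hη
    nlinarith
  push Not at hcase
  by_cases hz : l * η = 0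
  · refine ⟨fun _ => none, fun j => ?_⟩
    have : mV H l k (fun _ => none) j = 0 := by simp [mV, mX]
    rw [this, sub_zero]
    refine (hbound j).trans ?_
    rw [hz, mul_assoc 4 l η, hz]
    simp
  have hl0 : 0 < l := lt_of_le_of_ne hl fun h => hz (by rw [← h, zero_mul])
  have hη0 : 0 < η := lt_of_le_of_ne hη fun h => hz (by rw [← h, mul_zero])
  -- the weights
  let w : Option (I × Bool) → ℝ := fun o => match o with
    | none => 1 - (∑ i, |a i|) / l
    | some (i, true) => max (a i) 0 / l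
    | some (i, false) => max (-a i) 0 / l
  have hw : ∀ o, 0 ≤ w o := by
    intro o
    match o with
    | none =>
      show 0 ≤ 1 - (∑ i, |a i|) / l
      rw [sub_nonneg]
      exact (div_le_one hl0).mpr ha
    | some (i, true) => exact div_nonneg (le_max_right _ _) hl
    | some (i, false) => exact div_nonneg (le_max_right _ _) hl
  have hw1 : ∑ o, w o = 1 := by
    rw [Fintype.sum_option, Fintype.sum_prod_type]
    simp only [Fintype.sum_bool]
    show 1 - (∑ i, |a i|) / l + ∑ i, (max (a i) 0 / l + max (-a i) 0 / l) = 1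
    have : ∀ i, max (a i) 0 / l + max (-a i) 0 / l = |a i| / l := by
      intro i
      rw [← add_div]
      congr 1
      rcases le_total 0 (a i) with h | h
      · rw [max_eq_left h, max_eq_right (by linarith), abs_of_nonneg h, add_zero]
      · rw [max_eq_right h, max_eq_left (by linarith), abs_of_nonpos h, zero_add]
    rw [sum_congr rfl fun i _ => this i, ← sum_div]
    ring
  have hμ : ∀ j, ∑ o, w o * mX H o j = (∑ i, H j i * a i) / l := by
    intro j
    rw [Fintype.sum_option, Fintype.sum_prod_type]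
    simp only [Fintype.sum_bool]
    show (1 - (∑ i, |a i|) / l) * 0 + ∑ i, (max (a i) 0 / l * H j i + max (-a i) 0 / l * - H j i)
      = _
    have : ∀ i, max (a i) 0 / l * H j i + max (-a i) 0 / l * - H j i = H j i * a i / l := by
      intro i
      rcases le_total 0 (a i) with h | h
      · rw [max_eq_left h, max_eq_right (by linarith)]; ring
      · rw [max_eq_right h, max_eq_left (by linarith)]; ring
    rw [sum_congr rfl fun i _ => this i, ← sum_div, mul_zero, zero_add]
  have hX : ∀ o j, |mX H o j| ≤ η := by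
    intro o j
    match o with
    | none => simpa [mX] using hη
    | some (i, true) => exact h1 j i
    | some (i, false) =>
      show |- H j i| ≤ η
      rw [abs_neg]
      exact h1 j i
  set r := Real.sqrt (L / k) with hr
  have hr0 : 0 < r := Real.sqrt_pos.mpr (div_pos hLpos hk0)
  have hr2 : k * r ^ 2 = L := by
    rw [hr, Real.sq_sqrt (div_pos hLpos hk0).le]
    field_simp
  set lam := r / η with hlam
  have hlam0 : 0 < lam := div_pos hr0 hη0
  have hle : lam * η = r := by rw [hlam]; field_simp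
  obtain ⟨s, hs⟩ := maurey_steps w hw hw1 (mX H) η lam (fun j => (∑ i, H j i * a i) / l) hX hμ
    (by rw [abs_of_pos hlam0, mul_assoc, hle]; linarith) none k
  refine ⟨fun t => s t, fun j => ?_⟩
  set T := ∑ t ∈ range k, (mX H (s t) j - (∑ i, H j i * a i) / l) with hT
  have hval : mV H l k (fun t => s t) j - ∑ i, H j i * a i = l / k * T := by
    rw [hT, sum_sub_distrib, sum_const, card_range, nsmul_eq_mul, mV, ← Fin.sum_univ_eq_sum_range
      (fun t => mX H (s t) j) k]
    field_simp
  have hexp : Real.exp (lam * |T|) ≤ Real.exp (2 * L) := by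
    have h2 : Real.exp (lam * |T|) ≤ Real.exp (lam * T) + Real.exp (-lam * T) := by
      rcases abs_cases T with ⟨h, _⟩ | ⟨h, _⟩
      · rw [h]
        linarith [Real.exp_pos (-lam * T)]
      · rw [h, mul_neg, ← neg_mul]
        linarith [Real.exp_pos (lam * T)]
    have h3 : Real.exp (lam * T) + Real.exp (-lam * T) ≤
        ∑ j, (Real.exp (lam * ∑ t ∈ range k, (mX H (s t) j - (∑ i, H j i * a i) / l)) +
        Real.exp (-lam * ∑ t ∈ range k, (mX H (s t) j - (∑ i, H j i * a i) / l))) :=
      single_le_sum (f := fun j =>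
        (Real.exp (lam * ∑ t ∈ range k, (mX H (s t) j - (∑ i, H j i * a i) / l)) +
        Real.exp (-lam * ∑ t ∈ range k, (mX H (s t) j - (∑ i, H j i * a i) / l))))
        (fun j _ => by positivity) (mem_univ j)
    have h4 : Real.exp (k * (lam ^ 2 * η ^ 2)) * (2 * Fintype.card J) = Real.exp (2 * L) := by
      rw [← mul_pow, hle, hr2, two_mul L, Real.exp_add]
      congr 1
      rw [hL, Real.exp_log (by linarith)]
    exact (h2.trans h3).trans (hs.trans (le_of_eq h4))
  have hT2 : lam * |T| ≤ 2 * L := Real.exp_le_exp.mp hexp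
  rw [abs_sub_comm, hval, abs_mul, abs_of_pos (div_pos hl0 hk0)]
  have hT3 : |T| ≤ 2 * k * r * η := by
    have : lam * |T| ≤ lam * (2 * k * r * η) := by
      refine hT2.trans (le_of_eq ?_)
      calc 2 * L = 2 * (k * r ^ 2) := by rw [hr2]
        _ = 2 * k * r * r := by ring
        _ = 2 * k * r * (lam * η) := by rw [hle]
        _ = lam * (2 * k * r * η) := by ring
    exact le_of_mul_le_mul_left this hlam0
  calc l / k * |T| ≤ l / k * (2 * k * r * η) :=
        mul_le_mul_of_nonneg_left hT3 (div_pos hl0 hk0).le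
    _ = 2 * (l * η * r) := by field_simp
    _ ≤ 4 * l * η * r := by
        have : 0 ≤ l * η * r := by positivity
        nlinarith

theorem maurey_net {I J : Type} [Fintype I] [Fintype J] [Nonempty J] (H : J → I → ℝ) (η : ℝ)
    (hη : 0 ≤ η) (h1 : ∀ j i, |H j i| ≤ η) (A : Set (I → ℝ)) (l : ℝ) (hl : 0 ≤ l)
    (hA : ∀ a ∈ A, ∑ i, |a i| ≤ l) (k : ℕ) (hk : 1 ≤ k) :
    ∃ N : Finset (I → ℝ), (N.card : ℝ) ≤ (2 * Fintype.card I + 1) ^ k ∧ (↑N ⊆ A) ∧
      ∀ a ∈ A, ∃ b ∈ N, ∀ j, |∑ i, H j i * (a i - b i)| ≤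
        8 * l * η * Real.sqrt (Real.log (2 * Fintype.card J) / k) := by
  classical
  set D := 4 * l * η * Real.sqrt (Real.log (2 * Fintype.card J) / k) with hD
  let P : (Fin k → Option (I × Bool)) → Prop := fun s =>
    ∃ a ∈ A, ∀ j, |∑ i, H j i * a i - mV H l k s j| ≤ D
  let f : (Fin k → Option (I × Bool)) → (I → ℝ) := fun s =>
    if h : P s then h.choose else 0
  have hf : ∀ s, P s → f s ∈ A ∧ ∀ j, |∑ i, H j i * f s i - mV H l k s j| ≤ D := by
    intro s hs
    have : f s = hs.choose := dif_pos hs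
    rw [this]
    exact hs.choose_spec
  refine ⟨(univ.filter P).image f, ?_, ?_, ?_⟩
  · have hc : ((univ.filter P).image f).card ≤ (2 * Fintype.card I + 1) ^ k := by
      refine card_image_le.trans ((card_filter_le _ _).trans (le_of_eq ?_))
      rw [card_univ, Fintype.card_fun, Fintype.card_fin, Fintype.card_option, Fintype.card_prod,
        Fintype.card_bool, mul_comm]
    exact_mod_cast hc
  · intro b hb
    simp only [coe_image, coe_filter, mem_univ, true_and] at hb
    obtain ⟨s, hs, rfl⟩ := hb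
    exact (hf s hs).1
  · intro a ha
    obtain ⟨s, hs⟩ := maurey_select H η hη h1 a l hl (hA a ha) k hk
    have hP : P s := ⟨a, ha, hs⟩
    refine ⟨f s, mem_image_of_mem f (mem_filter.mpr ⟨mem_univ _, hP⟩), fun j => ?_⟩
    have e : ∑ i, H j i * (a i - f s i) =
        (∑ i, H j i * a i - mV H l k s j) - (∑ i, H j i * f s i - mV H l k s j) := by
      simp only [mul_sub, sum_sub_distrib]
      ring
    rw [e]
    refine (abs_sub _ _).trans ?_
    have g1 := hs j
    have g2 := (hf s hP).2 j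
    rw [← hD] at g1
    calc _ ≤ D + D := add_le_add g1 g2
      _ = 8 * l * η * Real.sqrt (Real.log (2 * Fintype.card J) / k) := by rw [hD]; ring

end Pool.Agent.FJL
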